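import Pool.Agent.Helper48.OL.Tfp

/-! OL, part ABS: the abstract theorem on split systems. -/

set_option autoImplicit false

namespace Pool.Agent.Helper48.OL

open Pool.Agent.Helper40.OL

section lin

variable {G V W : Type} [Group G] [AddCommGroup V] [AddCommGroup W]

/-- equivariant maps are linear over the group ring -/
noncomputable def mkLin (ρ : Representation ℤ G V) (ρ' : Representation ℤ G W) (f : V →ₗ[ℤ] W)
    (hf : ∀ g v, f (ρ g v) = ρ' g (f v)) : ρ.asModule →ₗ[MonoidAlgebra ℤ G] ρ'.asModule where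
  toFun x := ρ'.asModuleEquiv.symm (f (ρ.asModuleEquiv x))
  map_add' x y := by rw [map_add, map_add, map_add]
  map_smul' r x := by
    rw [RingHom.id_apply]
    induction r using MonoidAlgebra.induction_linear with
    | zero => simp
    | add f g hf hg => rw [add_smul, add_smul, map_add, map_add, map_add, hf, hg]
    | single a b =>
      rw [Representation.single_smul, Representation.single_smul]
      have h1 : ρ.asModuleEquiv (b • ρ a (ρ.asModuleEquiv x)) = b • ρ a (ρ.asModuleEquiv x) := rfl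
      rw [h1, map_smul, hf]
      rfl

theorem mkLin_apply (ρ : Representation ℤ G V) (ρ' : Representation ℤ G W) (f : V →ₗ[ℤ] W)
    (hf : ∀ g v, f (ρ g v) = ρ' g (f v)) (x : ρ.asModule) :
    mkLin ρ ρ' f hf x = ρ'.asModuleEquiv.symm (f (ρ.asModuleEquiv x)) := rfl

end lin

section restr

variable {X : Type} (p : X → Prop)

/-- extension by zero -/
noncomputable def ext0 : ({x // p x} →₀ ℤ) →ₗ[ℤ] (X →₀ ℤ) := Finsupp.lmapDomain ℤ ℤ Subtype.val

/-- restriction -/
noncomputable def res0 : (X →₀ ℤ) →ₗ[ℤ] ({x // p x} →₀ ℤ) := Finsupp.lsubtypeDomain {x | p x}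

theorem ext0_apply (z : {x // p x} →₀ ℤ) (x : {x // p x}) : ext0 p z x = z x :=
  Finsupp.mapDomain_apply Subtype.val_injective z x

theorem ext0_single (x : {x // p x}) (a : ℤ) :
    ext0 p (Finsupp.single x a) = Finsupp.single (x : X) a := Finsupp.mapDomain_single

theorem ext0_mem (z : {x // p x} →₀ ℤ) : ext0 p z ∈ Sup {x | p x} := by
  classical
  rw [Finsupp.mem_supported]
  intro x hx
  have h1 := Finsupp.mapDomain_support (f := (Subtype.val : {x // p x} → X)) (s := z) hx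
  obtain ⟨y, -, rfl⟩ := Finset.mem_image.1 h1
  exact y.2

theorem res0_ext0 (z : {x // p x} →₀ ℤ) : res0 p (ext0 p z) = z := by
  ext x
  exact ext0_apply p z x

theorem ext0_res0 (w : X →₀ ℤ) (hw : w ∈ Sup {x | p x}) : ext0 p (res0 p w) = w := by
  ext x
  by_cases hx : p x
  · exact ext0_apply p (res0 p w) ⟨x, hx⟩
  · have h1 : w x = 0 := by
      by_contra h
      exact hx (hw (Finsupp.mem_support_iff.2 h))
    have h2 : ext0 p (res0 p w) x = 0 := by
      by_contra h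
      exact hx (ext0_mem p (res0 p w) (Finsupp.mem_support_iff.2 h))
    rw [h1, h2]

theorem ext0_inj (z w : {x // p x} →₀ ℤ) (h : ext0 p z = ext0 p w) : z = w := by
  rw [← res0_ext0 p z, h, res0_ext0]

theorem ext0_sum (z : {x // p x} →₀ ℤ) :
    (ext0 p z).sum (fun _ a => a) = z.sum (fun _ a => a) := by
  show (Finsupp.mapDomain Subtype.val z).sum (fun _ a => a) = _
  rw [Finsupp.sum_mapDomain_index (fun _ => rfl) (fun _ _ _ => rfl)]

end restr

section cubes

variable {G : Type} [Group G] (S : SplitSys G) (N₀ i : ℕ)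

/-- the condition: cubes of dimension `i` with top level at most `N₀` -/
def PX (c : Cb S) : Prop := ∃ N ≤ N₀, Ok S i N c

/-- the cubes of dimension `i` with top level at most `N₀` -/
abbrev XX : Type := {c : Cb S // PX S N₀ i c}

theorem PX_smul (g : G) (c : Cb S) (h : PX S N₀ i c) : PX S N₀ i (g • c.1, c.2) := by
  obtain ⟨N, hN, h1, h2, h3, h4⟩ := h
  exact ⟨N, hN, h1, h2, h3, h4⟩

instance XXact : MulAction G (XX S N₀ i) where
  smul g x := ⟨(g • x.1.1, x.1.2), PX_smul S N₀ i g x.1 x.2⟩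
  one_smul x := by
    apply Subtype.ext
    exact Prod.ext (one_smul G x.1.1) rfl
  mul_smul g h x := by
    apply Subtype.ext
    exact Prod.ext (mul_smul g h x.1.1) rfl

theorem XX_smul_val (g : G) (x : XX S N₀ i) :
    ((g • x : XX S N₀ i) : Cb S) = (g • x.1.1, x.1.2) := rfl

theorem ext0_smul (g : G) (z : XX S N₀ i →₀ ℤ) :
    ext0 (PX S N₀ i) (permRep G (XX S N₀ i) g z) =
      Finsupp.mapDomain (fun c : Cb S => (g • c.1, c.2)) (ext0 (PX S N₀ i) z) := by
  show Finsupp.mapDomain Subtype.val (Finsupp.mapDomain (fun x => g • x) z) =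
    Finsupp.mapDomain _ (Finsupp.mapDomain Subtype.val z)
  rw [← Finsupp.mapDomain_comp, ← Finsupp.mapDomain_comp]
  rfl

theorem bd_mem (hBD : S_BD) (z : XX S N₀ (i + 1) →₀ ℤ) :
    bd S (ext0 (PX S N₀ (i + 1)) z) ∈ Sup {c | PX S N₀ i c} := by
  obtain ⟨h1, h2, h3, h4, -⟩ := hBD G S
  induction z using Finsupp.induction_linear with
  | zero => rw [map_zero, map_zero]; exact Submodule.zero_mem _
  | add f g hf hg => rw [map_add, map_add]; exact Submodule.add_mem _ hf hg
  | single c a =>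
    rw [ext0_single]
    have h5 : Finsupp.single (c : Cb S) a = a • Finsupp.single (c : Cb S) (1 : ℤ) := by
      rw [Finsupp.smul_single, smul_eq_mul, mul_one]
    rw [h5, map_smul, h1]
    obtain ⟨N, hN, hc⟩ := c.2
    have h6 : bdRec S c.1.1 c.1.2 = fbRec S c.1.1 c.1.2 +
      (bdRec S c.1.1 c.1.2 - fbRec S c.1.1 c.1.2) := by abel
    rw [h6]
    refine Submodule.smul_mem _ _ (Submodule.add_mem _ ?_ ?_)
    · refine Finsupp.supported_mono ?_ (h3 i N c hc)
      intro c' hc'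
      exact ⟨N, hN, hc'⟩
    · refine Finsupp.supported_mono ?_ (h4 i N c hc)
      rintro c' ⟨N', hN', hc'⟩
      exact ⟨N', by omega, hc'⟩

/-- the differential, integrally -/
noncomputable def dZ : (XX S N₀ (i + 1) →₀ ℤ) →ₗ[ℤ] (XX S N₀ i →₀ ℤ) :=
  res0 (PX S N₀ i) ∘ₗ bd S ∘ₗ ext0 (PX S N₀ (i + 1))

theorem ext0_dZ (hBD : S_BD) (z : XX S N₀ (i + 1) →₀ ℤ) :
    ext0 (PX S N₀ i) (dZ S N₀ i z) = bd S (ext0 (PX S N₀ (i + 1)) z) :=
  ext0_res0 _ _ (bd_mem S N₀ i hBD z)

theorem dZ_smul (hBD : S_BD) (g : G) (z : XX S N₀ (i + 1) →₀ ℤ) :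
    dZ S N₀ i (permRep G _ g z) = permRep G _ g (dZ S N₀ i z) := by
  apply ext0_inj
  rw [ext0_dZ S N₀ i hBD, ext0_smul, ext0_smul, ext0_dZ S N₀ i hBD]
  obtain ⟨-, -, -, -, -, h6, -⟩ := hBD G S
  exact h6 g _

/-- the augmentation, integrally -/
noncomputable def eZ : (XX S N₀ 0 →₀ ℤ) →ₗ[ℤ] ℤ := Finsupp.linearCombination ℤ (fun _ => (1 : ℤ))

theorem eZ_eq (z : XX S N₀ 0 →₀ ℤ) : eZ S N₀ z = z.sum (fun _ a => a) := by
  unfold eZ
  rw [Finsupp.linearCombination_apply]
  simp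

theorem eZ_smul (g : G) (z : XX S N₀ 0 →₀ ℤ) :
    eZ S N₀ (permRep G _ g z) = Representation.trivial ℤ G ℤ g (eZ S N₀ z) := by
  rw [eZ_eq, eZ_eq]
  show (Finsupp.mapDomain (fun x => g • x) z).sum (fun _ a => a) = z.sum (fun _ a => a)
  rw [Finsupp.sum_mapDomain_index (fun _ => rfl) (fun _ _ _ => rfl)]

end cubes

theorem bd_zero_of_dim0 {G : Type} [Group G] (S : SplitSys G) (hBD : S_BD) (N₀ : ℕ)
    (z : XX S N₀ 0 →₀ ℤ) : bd S (ext0 (PX S N₀ 0) z) = 0 := by
  obtain ⟨h1, -⟩ := hBD G S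
  induction z using Finsupp.induction_linear with
  | zero => rw [map_zero, map_zero]
  | add f g hf hg => rw [map_add, map_add, hf, hg, add_zero]
  | single c a =>
    rw [ext0_single]
    have h5 : Finsupp.single (c : Cb S) a = a • Finsupp.single (c : Cb S) (1 : ℤ) := by
      rw [Finsupp.smul_single, smul_eq_mul, mul_one]
    rw [h5, map_smul, h1]
    obtain ⟨N, hN, -, -, h3, -⟩ := c.2
    rw [List.length_eq_zero_iff.1 h3]
    show a • (0 : Cb S →₀ ℤ) = 0
    rw [smul_zero]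

theorem bd_bd {G : Type} [Group G] (S : SplitSys G) (hBD : S_BD) (N₀ i : ℕ)
    (z : XX S N₀ i →₀ ℤ) : bd S (bd S (ext0 (PX S N₀ i) z)) = 0 := by
  obtain ⟨h1, -, -, -, h2, -⟩ := hBD G S
  induction z using Finsupp.induction_linear with
  | zero => rw [map_zero, map_zero, map_zero]
  | add f g hf hg => rw [map_add, map_add, map_add, hf, hg, add_zero]
  | single c a =>
    rw [ext0_single]
    have h5 : Finsupp.single (c : Cb S) a = a • Finsupp.single (c : Cb S) (1 : ℤ) := by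
      rw [Finsupp.smul_single, smul_eq_mul, mul_one]
    rw [h5, map_smul, h1, map_smul]
    obtain ⟨N, hN, hc⟩ := c.2
    rw [h2 i N c hc, smul_zero]

theorem sum_bd {G : Type} [Group G] (S : SplitSys G) (hBD : S_BD) (N₀ : ℕ)
    (z : XX S N₀ 1 →₀ ℤ) : (bd S (ext0 (PX S N₀ 1) z)).sum (fun _ a => a) = 0 := by
  obtain ⟨h1, -, -, -, -, -, h2⟩ := hBD G S
  induction z using Finsupp.induction_linear with
  | zero => rw [map_zero, map_zero]; rfl
  | add f g hf hg =>
    rw [map_add, map_add, Finsupp.sum_add_index' (fun _ => rfl) (fun _ _ _ => rfl), hf, hg,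
      add_zero]
  | single c a =>
    rw [ext0_single]
    have h5 : Finsupp.single (c : Cb S) a = a • Finsupp.single (c : Cb S) (1 : ℤ) := by
      rw [Finsupp.smul_single, smul_eq_mul, mul_one]
    rw [h5, map_smul, h1]
    obtain ⟨N, hN, hc⟩ := c.2
    rw [Finsupp.sum_smul_index (fun _ => rfl), ← Finsupp.mul_sum, h2 N c hc, mul_zero]

theorem finite_lists (N i : ℕ) : {L : List ℕ | L.length = i ∧ ∀ a ∈ L, a < N}.Finite := by
  induction i with
  | zero =>
    refine (Set.finite_singleton ([] : List ℕ)).subset ?_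
    rintro L ⟨h, -⟩
    exact List.length_eq_zero_iff.1 h
  | succ i ih =>
    refine (Set.Finite.image2 (fun a L => a :: L) (Set.finite_Iio N) ih).subset ?_
    rintro L ⟨h, h'⟩
    obtain ⟨a, L', rfl⟩ := List.exists_cons_of_length_eq_add_one h
    refine ⟨a, h' a (by simp), L', ⟨by simpa using h, fun x hx => h' x (by simp [hx])⟩, rfl⟩

/-- index set of the types of cubes -/
abbrev II (N₀ i : ℕ) : Type := {p : ℕ × List ℕ // p.1 ≤ N₀ ∧ p.2.length = i ∧ ∀ a ∈ p.2, a < N₀}

instance (N₀ i : ℕ) : Finite (II N₀ i) := by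
  apply Set.Finite.to_subtype
  refine ((Set.finite_Iic N₀).prod (finite_lists N₀ i)).subset ?_
  rintro ⟨n, L⟩ ⟨h1, h2, h3⟩
  exact ⟨h1, h2, h3⟩

theorem XX_FPn {G : Type} [Group G] (S : SplitSys G) (hPM : S_PMSUM)
    (hV : ∀ n m, FPn (R := MonoidAlgebra ℤ G) m (PM G (S.V n))) (N₀ i n : ℕ) :
    FPn (R := MonoidAlgebra ℤ G) n (PM G (XX S N₀ i)) := by
  obtain ⟨hiso, hsum⟩ := hPM G
  refine hsum (XX S N₀ i) (II N₀ i) (fun c => ⟨(c.1.1.1, c.1.2), ?_⟩) ?_ n ?_
  · obtain ⟨N, hN, h1, h2, h3, h4⟩ := c.2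
    exact ⟨by omega, h3, fun a ha => lt_of_lt_of_le (h2 a ha) (by omega)⟩
  · intro g x
    rfl
  · intro ι act hact
    by_cases hne : ∃ x : XX S N₀ i, (x.1.1.1, x.1.2) = ι.1
    · obtain ⟨x₀, hx₀⟩ := hne
      obtain ⟨⟨m, L⟩, hι⟩ := ι
      obtain ⟨N, hN, h1, h2, h3, h4⟩ := x₀.2
      have e1 : x₀.1.1.1 = m := congrArg Prod.fst hx₀
      have e2 : x₀.1.2 = L := congrArg Prod.snd hx₀
      have hmem : ∀ v : S.V m, PX S N₀ i ((⟨m, v⟩ : Vt S), L) := by
        intro v
        refine ⟨N, hN, by rw [← e2]; exact h1, ?_, by rw [← e2]; exact h3, by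
          show m + i = N
          rw [← e1]; exact h4⟩
        intro a ha
        rw [← e2] at ha
        show a < m
        rw [← e1]
        exact h2 a ha
      let e : S.V m → {x : XX S N₀ i // (⟨(x.1.1.1, x.1.2), by
          obtain ⟨N, hN, h1, h2, h3, h4⟩ := x.2
          exact ⟨by omega, h3, fun a ha => lt_of_lt_of_le (h2 a ha) (by omega)⟩⟩ : II N₀ i) =
          ⟨(m, L), hι⟩} := fun v => ⟨⟨((⟨m, v⟩ : Vt S), L), hmem v⟩, rfl⟩
      have he : Function.Bijective e := by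
        constructor
        · intro v w hvw
          have h5 := congrArg (fun x => x.1.1.1) hvw
          exact eq_of_heq (Sigma.mk.inj h5).2
        · rintro ⟨⟨⟨⟨m', w⟩, L'⟩, hx⟩, hx'⟩
          have h5 := congrArg Subtype.val hx'
          have e3 : m' = m := congrArg Prod.fst h5
          have e4 : L' = L := congrArg Prod.snd h5
          subst e3
          subst e4
          exact ⟨w, rfl⟩
      refine hiso (S.V m) _ (Equiv.ofBijective e he) ?_ n (hV m n)
      intro g v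
      apply Subtype.ext
      rw [hact g]
      rfl
    · have hempty : IsEmpty {x : XX S N₀ i // (⟨(x.1.1.1, x.1.2), by
          obtain ⟨N, hN, h1, h2, h3, h4⟩ := x.2
          exact ⟨by omega, h3, fun a ha => lt_of_lt_of_le (h2 a ha) (by omega)⟩⟩ : II N₀ i) =
          ι} := ⟨fun x => hne ⟨x.1, congrArg Subtype.val x.2⟩⟩
      refine hsum _ PEmpty (fun x => (hempty.false x).elim) (fun g x => (hempty.false x).elim) n
        (fun j => j.elim)

theorem abs_thm (hFILT : S_FILT) (hBD : S_BD) (hRES : S_RES) (hPM : S_PMSUM) : S_ABS := by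
  intro G _ S hA2 hA3 hD hne hdesc hV k
  obtain ⟨N₀, hN₀⟩ := hdesc k
  obtain ⟨hex, hvert⟩ := hFILT G S hA2 hA3 hD k N₀ hN₀
  obtain ⟨x₀, hx₀⟩ := hvert hne
  refine hRES (MonoidAlgebra ℤ G) k (fun i => PM G (XX S N₀ i))
    (fun i => mkLin _ _ (dZ S N₀ i) (dZ_smul S N₀ i hBD)) (Triv G)
    (mkLin _ _ (eZ S N₀) (eZ_smul S N₀)) ?_ ?_ ?_ ?_
  · intro n
    refine ⟨(permRep G (XX S N₀ 0)).asModuleEquiv.symm (Finsupp.single ⟨(x₀, []), ⟨x₀.1, hx₀,
      List.Pairwise.nil, by simp, rfl, rfl⟩⟩ ((Representation.trivial ℤ G ℤ).asModuleEquiv n)), ?_⟩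
    rw [mkLin_apply, LinearEquiv.apply_symm_apply, eZ_eq, Finsupp.sum_single_index rfl,
      LinearEquiv.symm_apply_apply]
  · intro hk
    apply le_antisymm
    · rintro _ ⟨z, rfl⟩
      rw [LinearMap.mem_ker, mkLin_apply, mkLin_apply, LinearEquiv.apply_symm_apply, eZ_eq,
        ← ext0_sum, ext0_dZ S N₀ 0 hBD]
      rw [sum_bd S hBD N₀, map_zero]
    · intro z hz
      rw [LinearMap.mem_ker, mkLin_apply, LinearEquiv.map_eq_zero_iff, eZ_eq, ← ext0_sum] at hz
      obtain ⟨w, hw, hwz⟩ := hex 0 (by omega) _ (ext0_mem (PX S N₀ 0) _)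
        (bd_zero_of_dim0 S hBD N₀ _) (fun _ => hz)
      refine ⟨(permRep G (XX S N₀ 1)).asModuleEquiv.symm (res0 (PX S N₀ 1) w), ?_⟩
      rw [mkLin_apply, LinearEquiv.apply_symm_apply]
      have h1 : dZ S N₀ 0 (res0 (PX S N₀ 1) w) = (permRep G (XX S N₀ 0)).asModuleEquiv z := by
        apply ext0_inj
        rw [ext0_dZ S N₀ 0 hBD, ext0_res0 (PX S N₀ (0 + 1)) w hw, hwz]
      rw [h1, LinearEquiv.symm_apply_apply]
  · intro i hi
    apply le_antisymm
    · rintro _ ⟨z, rfl⟩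
      rw [LinearMap.mem_ker, mkLin_apply, mkLin_apply, LinearEquiv.apply_symm_apply,
        LinearEquiv.map_eq_zero_iff]
      apply ext0_inj
      rw [ext0_dZ S N₀ i hBD, ext0_dZ S N₀ (i + 1) hBD, bd_bd S hBD, map_zero]
    · intro z hz
      rw [LinearMap.mem_ker, mkLin_apply, LinearEquiv.map_eq_zero_iff] at hz
      have hz' := congrArg (ext0 (PX S N₀ i)) hz
      rw [ext0_dZ S N₀ i hBD, map_zero] at hz'
      obtain ⟨w, hw, hwz⟩ := hex (i + 1) (by omega) _ (ext0_mem (PX S N₀ (i + 1)) _)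
        hz' (fun h => by omega)
      refine ⟨(permRep G (XX S N₀ (i + 1 + 1))).asModuleEquiv.symm
        (res0 (PX S N₀ (i + 1 + 1)) w), ?_⟩
      rw [mkLin_apply, LinearEquiv.apply_symm_apply]
      have h1 : dZ S N₀ (i + 1) (res0 (PX S N₀ (i + 1 + 1)) w) =
          (permRep G (XX S N₀ (i + 1))).asModuleEquiv z := by
        apply ext0_inj
        rw [ext0_dZ S N₀ (i + 1) hBD, ext0_res0 (PX S N₀ (i + 1 + 1)) w hw, hwz]
      rw [h1, LinearEquiv.symm_apply_apply]
  · intro i n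
    exact XX_FPn S hPM hV N₀ i n

end Pool.Agent.Helper48.OL
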