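import Pool.Agent.Helper48.OL.Tfp

/-! OL, part ISO: invariance of finiteness properties under isomorphisms of groups. -/

set_option autoImplicit false

namespace Pool.Agent.Helper48.OL

open Pool.Agent.Helper40.OL

theorem hasRes_ringEquiv {R R' : Type} [Ring R] [Ring R'] (φ : R' ≃+* R) {M M' : Type}
    [AddCommGroup M] [Module R M] [AddCommGroup M'] [Module R' M'] (ψ : M ≃+ M')
    (hψ : ∀ (r : R') (x : M), ψ (φ r • x) = r • ψ x) (S : ℕ → Prop)
    (h : HasRes (R := R) S M) : HasRes (R := R') S M' := by
  obtain ⟨P, i1, i2, d, ε, hproj, hsurj, hex0, hex, hfin⟩ := h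
  let i2' : ∀ i, Module R' (P i) := fun i => Module.compHom (P i) (φ : R' →+* R)
  have hsm : ∀ (i : ℕ) (r : R') (x : P i), r • x = φ r • x := fun i r x => rfl
  have : RingHomInvPair (φ.symm : R →+* R') (φ : R' →+* R) :=
    ⟨by ext x; simp, by ext x; simp⟩
  have : RingHomInvPair (φ : R' →+* R) (φ.symm : R →+* R') :=
    ⟨by ext x; simp, by ext x; simp⟩
  let eqv : ∀ i, P i ≃ₛₗ[(φ.symm : R →+* R')] P i := fun i =>
    { toFun := fun x => x
      map_add' := fun _ _ => rfl
      map_smul' := fun r x => by
        rw [hsm]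
        simp
      invFun := fun x => x
      left_inv := fun _ => rfl
      right_inv := fun _ => rfl }
  let d' : ∀ i, P (i + 1) →ₗ[R'] P i := fun i =>
    { toFun := fun x => d i x
      map_add' := (d i).map_add
      map_smul' := fun r x => (d i).map_smul (φ r) x }
  let ε' : P 0 →ₗ[R'] M' :=
    { toFun := fun x => ψ (ε x)
      map_add' := fun x y => by rw [map_add, map_add]
      map_smul' := fun r x => by
        rw [hsm, map_smul, hψ]
        rfl }
  refine ⟨P, i1, i2', d', ε', fun i => ?_, ?_, ?_, fun i => ?_, fun i hi => ?_⟩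
  · have := hproj i
    exact Module.Projective.of_equiv (eqv i)
  · intro y
    obtain ⟨x, hx⟩ := hsurj (ψ.symm y)
    exact ⟨x, by show ψ (ε x) = y; rw [hx]; simp⟩
  · ext x
    have h1 := SetLike.ext_iff.1 hex0 x
    rw [LinearMap.mem_range, LinearMap.mem_ker] at h1
    rw [LinearMap.mem_range, LinearMap.mem_ker]
    show (∃ y, d 0 y = x) ↔ ψ (ε x) = 0
    rw [h1]
    simp
  · ext x
    have h1 := SetLike.ext_iff.1 (hex i) x
    rw [LinearMap.mem_range, LinearMap.mem_ker] at h1
    rw [LinearMap.mem_range, LinearMap.mem_ker]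
    exact h1
  · have := hfin i hi
    exact Module.Finite.of_surjective (eqv i).toLinearMap (eqv i).surjective

theorem iso_thm : S_ISO := by
  intro G H _ _ e n h
  let φ : MonoidAlgebra ℤ H ≃+* MonoidAlgebra ℤ G := MonoidAlgebra.mapDomainRingEquiv ℤ e.symm
  have h1 : HasRes (R := MonoidAlgebra ℤ G) (fun i => i ≤ n) (Triv G) := h
  have h2 : HasRes (R := MonoidAlgebra ℤ H) (fun i => i ≤ n) (Triv H) := by
    refine hasRes_ringEquiv φ (((Representation.trivial ℤ G ℤ).asModuleEquiv).toAddEquiv.trans
      ((Representation.trivial ℤ H ℤ).asModuleEquiv).symm.toAddEquiv) ?_ _ h1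
    intro r x
    induction r using MonoidAlgebra.induction_linear with
    | zero => simp
    | add f g hf hg => rw [map_add, add_smul, map_add, hf, hg, add_smul]
    | single a b =>
      rw [MonoidAlgebra.mapDomainRingEquiv_single, Representation.single_smul,
        Representation.single_smul]
      rfl
  exact h2

end Pool.Agent.Helper48.OL
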