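import Pool.Agent.Helper40.OL.Spec

/-! OL, part TFP: from the recursive form of finiteness to resolutions. -/

set_option autoImplicit false

namespace Pool.Agent.Helper48.OL

open Pool.Agent.Helper40.OL

/-- `M` has a projective resolution whose terms in degrees `i` with `S i` are finitely generated -/
def HasRes {R : Type} [Ring R] (S : ℕ → Prop) (M : Type) [AddCommGroup M] [Module R M] : Prop :=
  ∃ (P : ℕ → Type) (_ : ∀ i, AddCommGroup (P i)) (_ : ∀ i, Module R (P i))
    (d : ∀ i, P (i + 1) →ₗ[R] P i) (ε : P 0 →ₗ[R] M),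
    (∀ i, Module.Projective R (P i)) ∧ Function.Surjective ε ∧
    LinearMap.range (d 0) = LinearMap.ker ε ∧
    (∀ i, LinearMap.range (d (i + 1)) = LinearMap.ker (d i)) ∧
    ∀ i, S i → Module.Finite R (P i)

/-- a bundled module -/
structure Md (R : Type) [Ring R] where
  M : Type
  [i1 : AddCommGroup M]
  [i2 : Module R M]

attribute [instance] Md.i1 Md.i2

/-- the free cover of a module -/
noncomputable def cov {R : Type} [Ring R] (X : Md R) : (X.M →₀ R) →ₗ[R] X.M :=
  Finsupp.linearCombination R (id : X.M → X.M)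

theorem cov_surj {R : Type} [Ring R] (X : Md R) : Function.Surjective (cov X) := fun x =>
  ⟨Finsupp.single x 1, by simp [cov]⟩

/-- the kernel of the free cover -/
noncomputable def nxt {R : Type} [Ring R] (X : Md R) : Md R := ⟨LinearMap.ker (cov X)⟩

/-- iterated kernels -/
noncomputable def stage {R : Type} [Ring R] (X : Md R) : ℕ → Md R
  | 0 => X
  | n + 1 => nxt (stage X n)

/-- the inclusion of the kernel -/
noncomputable def inc {R : Type} [Ring R] (X : Md R) : (nxt X).M →ₗ[R] (X.M →₀ R) :=
  (LinearMap.ker (cov X)).subtype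

theorem inc_range {R : Type} [Ring R] (X : Md R) :
    LinearMap.range (inc X) = LinearMap.ker (cov X) := Submodule.range_subtype _

theorem inc_inj {R : Type} [Ring R] (X : Md R) : LinearMap.ker (inc X) = ⊥ :=
  Submodule.ker_subtype _

/-- the differential -/
noncomputable def dn {R : Type} [Ring R] (X : Md R) : ((nxt X).M →₀ R) →ₗ[R] (X.M →₀ R) :=
  inc X ∘ₗ (cov (nxt X))

theorem dn_range {R : Type} [Ring R] (X : Md R) :
    LinearMap.range (dn X) = LinearMap.ker (cov X) := by
  rw [dn, LinearMap.range_comp, LinearMap.range_eq_top.2 (cov_surj _), Submodule.map_top,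
    inc_range]

theorem dn_ker {R : Type} [Ring R] (X : Md R) :
    LinearMap.ker (dn X) = LinearMap.ker (cov (nxt X)) := by
  rw [dn, LinearMap.ker_comp, inc_inj]
  rfl

theorem hasRes_false {R : Type} [Ring R] (M : Type) [AddCommGroup M] [Module R M] :
    HasRes (R := R) (fun _ => False) M := by
  refine ⟨fun i => (stage (R := R) ⟨M⟩ i).M →₀ R, fun i => inferInstance, fun i => inferInstance,
    fun i => dn (stage (R := R) ⟨M⟩ i), cov (R := R) ⟨M⟩,
    fun i => inferInstance, cov_surj (R := R) ⟨M⟩, dn_range _, fun i => ?_, fun i h => h.elim⟩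
  exact (dn_range _).trans (dn_ker _).symm

/-- splicing -/
theorem hasRes_splice {R : Type} [Ring R] {M F : Type} [AddCommGroup M] [Module R M]
    [AddCommGroup F] [Module R F] [Module.Projective R F] [Module.Finite R F] (f : F →ₗ[R] M)
    (hf : Function.Surjective f) (S : ℕ → Prop) (h : HasRes (R := R) S (LinearMap.ker f)) :
    HasRes (R := R) (fun i => i = 0 ∨ ∃ j, i = j + 1 ∧ S j) M := by
  obtain ⟨P, i1, i2, d, ε, hproj, hsurj, hex0, hex, hfin⟩ := h
  let P' : ℕ → Type := fun i => match i with
    | 0 => F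
    | i + 1 => P i
  let i1' : ∀ i, AddCommGroup (P' i) := fun i => match i with
    | 0 => inferInstanceAs (AddCommGroup F)
    | i + 1 => i1 i
  let i2' : ∀ i, Module R (P' i) := fun i => match i with
    | 0 => inferInstanceAs (Module R F)
    | i + 1 => i2 i
  let d' : ∀ i, P' (i + 1) →ₗ[R] P' i := fun i => match i with
    | 0 => (LinearMap.ker f).subtype ∘ₗ ε
    | i + 1 => d i
  refine ⟨P', i1', i2', d', f, ?_, hf, ?_, ?_, ?_⟩
  · rintro (_ | i)
    · exact inferInstanceAs (Module.Projective R F)
    · exact hproj i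
  · show LinearMap.range ((LinearMap.ker f).subtype ∘ₗ ε) = LinearMap.ker f
    rw [LinearMap.range_comp, LinearMap.range_eq_top.2 hsurj, Submodule.map_top,
      Submodule.range_subtype]
  · rintro (_ | i)
    · show LinearMap.range (d 0) = LinearMap.ker ((LinearMap.ker f).subtype ∘ₗ ε)
      rw [LinearMap.ker_comp, Submodule.ker_subtype, hex0]
      rfl
    · exact hex i
  · rintro (_ | i) hi
    · exact inferInstanceAs (Module.Finite R F)
    · rcases hi with hi | ⟨j, hj, hS⟩
      · omega
      · obtain rfl : i = j := by omega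
        exact hfin i hS

theorem hasRes_mono {R : Type} [Ring R] {M : Type} [AddCommGroup M] [Module R M]
    (S T : ℕ → Prop) (hST : ∀ i, T i → S i) (h : HasRes (R := R) S M) : HasRes (R := R) T M := by
  obtain ⟨P, i1, i2, d, ε, hproj, hsurj, hex0, hex, hfin⟩ := h
  exact ⟨P, i1, i2, d, ε, hproj, hsurj, hex0, hex, fun i hi => hfin i (hST i hi)⟩

theorem hasRes_of_FPn {R : Type} [Ring R] (n : ℕ) : ∀ (M : Type) [AddCommGroup M] [Module R M],
    FPn (R := R) n M → HasRes (R := R) (fun i => i ≤ n) M := by
  induction n with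
  | zero =>
    intro M _ _ h
    have hfin : Module.Finite R M := h
    obtain ⟨k, f, hf⟩ := Module.Finite.exists_fin' R M
    refine hasRes_mono _ _ ?_ (hasRes_splice f hf _ (hasRes_false _))
    intro i hi
    left; omega
  | succ n ih =>
    intro M _ _ h
    obtain ⟨k, f, hf, hk⟩ := h
    refine hasRes_mono _ _ ?_ (hasRes_splice f hf _ (ih _ hk))
    intro i hi
    rcases i with _ | i
    · left; rfl
    · right; exact ⟨i, rfl, by omega⟩

theorem tfp_thm : S_TFP := by
  intro G _ n h
  exact hasRes_of_FPn n _ h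

end Pool.Agent.Helper48.OL
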